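import Pool.Agent.Y429.SauerD

/-!
# Sauer's question on quasiregular subgraphs has a negative answer

For every `k ≥ 9` and every real `C` and `F` there is a finite nonempty graph with at least `F`
times as many edges as vertices and no nonempty subgraph whose degrees all lie strictly between
`k` and `C k`.
-/

set_option autoImplicit false

namespace Pool.Agent.Results.MP_78fef3_co.NoQuasiregular

theorem result (C F : ℝ) (k : ℕ) (hk : 9 ≤ k) :
    ∃ (V : Type) (_ : Fintype V) (_ : Nonempty V) (G : SimpleGraph V),
      F * Fintype.card V ≤ (G.edgeSet.ncard : ℝ) ∧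
      ∀ H : G.Subgraph, H.verts.Nonempty →
        ¬ ∀ x ∈ H.verts, (k : ℝ) < ((H.neighborSet x).ncard : ℝ) ∧
          ((H.neighborSet x).ncard : ℝ) < C * k :=
  Pool.Agent.Y429.Sauer.main C F k hk

end Pool.Agent.Results.MP_78fef3_co.NoQuasiregular
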